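import Mathlib

set_option autoImplicit false

namespace Pool.Agent.Helper523.Valence

open Polynomial

/-- The polynomial of the counterexample (degree 8, real rational coefficients). -/
noncomputable def T : ℂ[X] :=
  C ((3/1965531328537651) : ℂ) * (C (5947186500000 : ℂ) * X ^ 2 + C ((-43091600000) : ℂ) * X ^ 3 + C ((845037500/3) : ℂ) * X ^ 4 + C ((-1422400) : ℂ) * X ^ 5 + C (5370 : ℂ) * X ^ 6 + C ((-40/3) : ℂ) * X ^ 7 + C ((1/56) : ℂ) * X ^ 8)

lemma T_eval (z : ℂ) : T.eval z = (3/1965531328537651) * (5947186500000 * z ^ 2 + (-43091600000) * z ^ 3 + (845037500/3) * z ^ 4 + (-1422400) * z ^ 5 + 5370 * z ^ 6 + (-40/3) * z ^ 7 + (1/56) * z ^ 8) := by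
  simp [T]

lemma T1_eval (z : ℂ) : (derivative T).eval z = (3/1965531328537651) * (11894373000000 * z ^ 1 + (-129274800000) * z ^ 2 + (3380150000/3) * z ^ 3 + (-7112000) * z ^ 4 + 32220 * z ^ 5 + (-280/3) * z ^ 6 + (1/7) * z ^ 7) := by
  simp [T]
  ring

lemma T2_eval (z : ℂ) : (derivative (derivative T)).eval z = (3/1965531328537651) * ((z ^ 2 - 60 * z + 15300) * (z ^ 2 - 300 * z + 28900) * (z ^ 2 - 200 * z + 26900)) := by
  simp [T]
  ring

lemma z1_2 : ((139 : ℂ) + 60 * Complex.I) ^ 2 = 15721 + 16680 * Complex.I := by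
  linear_combination (3600 : ℂ) * Complex.I_sq
lemma z1_3 : ((139 : ℂ) + 60 * Complex.I) ^ 3 = 1184419 + 3261780 * Complex.I := by
  rw [pow_succ, z1_2]
  linear_combination (1000800 : ℂ) * Complex.I_sq
lemma z1_4 : ((139 : ℂ) + 60 * Complex.I) ^ 4 = (-31072559) + 524452560 * Complex.I := by
  rw [pow_succ, z1_3]
  linear_combination (195706800 : ℂ) * Complex.I_sq
lemma z1_5 : ((139 : ℂ) + 60 * Complex.I) ^ 5 = (-35786239301) + 71034552300 * Complex.I := by
  rw [pow_succ, z1_4]
  linear_combination (31467153600 : ℂ) * Complex.I_sq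
lemma z1_6 : ((139 : ℂ) + 60 * Complex.I) ^ 6 = (-9236360400839) + 7726628411640 * Complex.I := by
  rw [pow_succ, z1_5]
  linear_combination (4262073138000 : ℂ) * Complex.I_sq
lemma z1_7 : ((139 : ℂ) + 60 * Complex.I) ^ 7 = (-1747451800415021) + 519819725167620 * Complex.I := by
  rw [pow_succ, z1_6]
  linear_combination (463597704698400 : ℂ) * Complex.I_sq
lemma z1_8 : ((139 : ℂ) + 60 * Complex.I) ^ 8 = (-274084983767745119) + (-32592166226602080) * Complex.I := by
  rw [pow_succ, z1_7]
  linear_combination (31189183510057200 : ℂ) * Complex.I_sq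

lemma cr1_2 : ((30 : ℂ) + 120 * Complex.I) ^ 2 = (-13500) + 7200 * Complex.I := by
  linear_combination (14400 : ℂ) * Complex.I_sq
lemma cr1_3 : ((30 : ℂ) + 120 * Complex.I) ^ 3 = (-1269000) + (-1404000) * Complex.I := by
  rw [pow_succ, cr1_2]
  linear_combination (864000 : ℂ) * Complex.I_sq
lemma cr1_4 : ((30 : ℂ) + 120 * Complex.I) ^ 4 = 130410000 + (-194400000) * Complex.I := by
  rw [pow_succ, cr1_3]
  linear_combination ((-168480000) : ℂ) * Complex.I_sq
lemma cr1_5 : ((30 : ℂ) + 120 * Complex.I) ^ 5 = 27240300000 + 9817200000 * Complex.I := by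
  rw [pow_succ, cr1_4]
  linear_combination ((-23328000000) : ℂ) * Complex.I_sq
lemma cr1_6 : ((30 : ℂ) + 120 * Complex.I) ^ 6 = (-360855000000) + 3563352000000 * Complex.I := by
  rw [pow_succ, cr1_5]
  linear_combination (1178064000000 : ℂ) * Complex.I_sq
lemma cr1_7 : ((30 : ℂ) + 120 * Complex.I) ^ 7 = (-438427890000000) + 63597960000000 * Complex.I := by
  rw [pow_succ, cr1_6]
  linear_combination (427602240000000 : ℂ) * Complex.I_sq

lemma cr2_2 : ((150 : ℂ) + 80 * Complex.I) ^ 2 = 16100 + 24000 * Complex.I := by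
  linear_combination (6400 : ℂ) * Complex.I_sq
lemma cr2_3 : ((150 : ℂ) + 80 * Complex.I) ^ 3 = 495000 + 4888000 * Complex.I := by
  rw [pow_succ, cr2_2]
  linear_combination (1920000 : ℂ) * Complex.I_sq
lemma cr2_4 : ((150 : ℂ) + 80 * Complex.I) ^ 4 = (-316790000) + 772800000 * Complex.I := by
  rw [pow_succ, cr2_3]
  linear_combination (391040000 : ℂ) * Complex.I_sq
lemma cr2_5 : ((150 : ℂ) + 80 * Complex.I) ^ 5 = (-109342500000) + 90576800000 * Complex.I := by
  rw [pow_succ, cr2_4]
  linear_combination (61824000000 : ℂ) * Complex.I_sq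
lemma cr2_6 : ((150 : ℂ) + 80 * Complex.I) ^ 6 = (-23647519000000) + 4839120000000 * Complex.I := by
  rw [pow_succ, cr2_5]
  linear_combination (7246144000000 : ℂ) * Complex.I_sq
lemma cr2_7 : ((150 : ℂ) + 80 * Complex.I) ^ 7 = (-3934257450000000) + (-1165933520000000) * Complex.I := by
  rw [pow_succ, cr2_6]
  linear_combination (387129600000000 : ℂ) * Complex.I_sq

lemma cr3_2 : ((100 : ℂ) + 130 * Complex.I) ^ 2 = (-6900) + 26000 * Complex.I := by
  linear_combination (16900 : ℂ) * Complex.I_sq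
lemma cr3_3 : ((100 : ℂ) + 130 * Complex.I) ^ 3 = (-4070000) + 1703000 * Complex.I := by
  rw [pow_succ, cr3_2]
  linear_combination (3380000 : ℂ) * Complex.I_sq
lemma cr3_4 : ((100 : ℂ) + 130 * Complex.I) ^ 4 = (-628390000) + (-358800000) * Complex.I := by
  rw [pow_succ, cr3_3]
  linear_combination (221390000 : ℂ) * Complex.I_sq
lemma cr3_5 : ((100 : ℂ) + 130 * Complex.I) ^ 5 = (-16195000000) + (-117570700000) * Complex.I := by
  rw [pow_succ, cr3_4]
  linear_combination ((-46644000000) : ℂ) * Complex.I_sq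
lemma cr3_6 : ((100 : ℂ) + 130 * Complex.I) ^ 6 = 13664691000000 + (-13862420000000) * Complex.I := by
  rw [pow_succ, cr3_5]
  linear_combination ((-15284191000000) : ℂ) * Complex.I_sq
lemma cr3_7 : ((100 : ℂ) + 130 * Complex.I) ^ 7 = 3168583700000000 + 390167830000000 * Complex.I := by
  rw [pow_succ, cr3_6]
  linear_combination ((-1802114600000000) : ℂ) * Complex.I_sq

lemma norm_ge_one {X Y : ℝ} (h : 1 ≤ X ^ 2 + Y ^ 2) : 1 ≤ ‖((X : ℂ) + (Y : ℂ) * Complex.I)‖ := by
  rw [Complex.norm_add_mul_I]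
  rw [Real.le_sqrt' (by norm_num)]
  simpa using h

lemma norm_lt_one {X Y : ℝ} (h : X ^ 2 + Y ^ 2 < 1) : ‖((X : ℂ) + (Y : ℂ) * Complex.I)‖ < 1 := by
  rw [Complex.norm_add_mul_I]
  rw [Real.sqrt_lt' (by norm_num)]
  simpa using h

lemma crit1 : (derivative T).eval ((30 : ℂ) + 120 * Complex.I) = ((12463317936000000/13758719299763557) : ℂ) + (6090522624000000/13758719299763557) * Complex.I := by
  rw [T1_eval, cr1_2, cr1_3, cr1_4, cr1_5, cr1_6, cr1_7]
  ring

lemma crit1_norm : 1 ≤ ‖(derivative T).eval ((30 : ℂ) + 120 * Complex.I)‖ := by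
  have h := norm_ge_one (X := (12463317936000000/13758719299763557)) (Y := (6090522624000000/13758719299763557)) (by norm_num)
  rw [crit1]
  push_cast at h
  exact h

lemma crit2 : (derivative T).eval ((150 : ℂ) + 80 * Complex.I) = ((13347947440000000/13758719299763557) : ℂ) + (3367632896000000/13758719299763557) * Complex.I := by
  rw [T1_eval, cr2_2, cr2_3, cr2_4, cr2_5, cr2_6, cr2_7]
  ring

lemma crit2_norm : 1 ≤ ‖(derivative T).eval ((150 : ℂ) + 80 * Complex.I)‖ := by
  have h := norm_ge_one (X := (13347947440000000/13758719299763557)) (Y := (3367632896000000/13758719299763557)) (by norm_num)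
  rw [crit2]
  push_cast at h
  exact h

lemma crit3 : (derivative T).eval ((100 : ℂ) + 130 * Complex.I) = ((13026027440000000/13758719299763557) : ℂ) + (4560022896000000/13758719299763557) * Complex.I := by
  rw [T1_eval, cr3_2, cr3_3, cr3_4, cr3_5, cr3_6, cr3_7]
  ring

lemma crit3_norm : 1 ≤ ‖(derivative T).eval ((100 : ℂ) + 130 * Complex.I)‖ := by
  have h := norm_ge_one (X := (13026027440000000/13758719299763557)) (Y := (4560022896000000/13758719299763557)) (by norm_num)
  rw [crit3]
  push_cast at h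
  exact h

/-- real part of T' on the segment -/
noncomputable def R (t : ℝ) : ℝ := (4959953541000000/1965531328537651) * t ^ 1 + (-6096987392400000/1965531328537651) * t ^ 2 + (4003513882850000/1965531328537651) * t ^ 3 + (94709159832000/280790189791093) * t ^ 4 + (-3459097890834660/1965531328537651) * t ^ 5 + (369454416033560/280790189791093) * t ^ 6 + (-5242355401245063/13758719299763557) * t ^ 7
/-- imaginary part of T' on the segment -/
noncomputable def I (t : ℝ) : ℝ := (2140987140000000/1965531328537651) * t ^ 1 + (-6468910992000000/1965531328537651) * t ^ 2 + (11025305667000000/1965531328537651) * t ^ 3 + (-1598531402880000/280790189791093) * t ^ 4 + (6866199825318000/1965531328537651) * t ^ 5 + (-309065136465600/280790189791093) * t ^ 6 + (1559459175502860/13758719299763557) * t ^ 7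

lemma T1_seg (t : ℝ) : (derivative T).eval ((t : ℂ) * (139 + 60 * Complex.I)) = (R t : ℂ) + (I t : ℂ) * Complex.I := by
  rw [T1_eval]
  simp only [mul_pow, z1_2, z1_3, z1_4, z1_5, z1_6, z1_7, R, I]
  push_cast
  ring

lemma seg_bound (t : ℝ) (h0 : 0 ≤ t) (h1 : t ≤ 1) : R t ^ 2 + I t ^ 2 < 1 := by
  have h1' : 0 ≤ 1 - t := by linarith
  have key : 1 - (R t ^ 2 + I t ^ 2) = 1 * (t ^ 0 * (1 - t) ^ 14) + 14 * (t ^ 1 * (1 - t) ^ 13) + (322376554652607666782861338399891/3863313403462983352350124597801) * (t ^ 2 * (1 - t) ^ 12) + (1144207757010326879620245353599564/3863313403462983352350124597801) * (t ^ 3 * (1 - t) ^ 11) + (2745018244940724421515814722398801/3863313403462983352350124597801) * (t ^ 4 * (1 - t) ^ 10) + (4736983841871181125516261444797602/3863313403462983352350124597801) * (t ^ 5 * (1 - t) ^ 9) + (6063210775982281548818466987196403/3863313403462983352350124597801) * (t ^ 6 * (1 - t) ^ 8) + (5828473658311192810176144771653032/3863313403462983352350124597801) * (t ^ 7 * (1 - t)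 ^ 7) + (29411535078523607796172085278374821/27043193824240883466450872184607) * (t ^ 8 * (1 - t) ^ 6) + (2238793812548845183919098689277602/3863313403462983352350124597801) * (t ^ 9 * (1 - t) ^ 5) + (5978637862369521046314365378362407/27043193824240883466450872184607) * (t ^ 10 * (1 - t) ^ 4) + (1538858911469446047471592189884948/27043193824240883466450872184607) * (t ^ 11 * (1 - t) ^ 3) + (237777281392254392788379169186477/27043193824240883466450872184607) * (t ^ 12 * (1 - t) ^ 2) + (17085355491497421707870691802098/27043193824240883466450872184607) * (t ^ 13 * (1 - t) ^ 1) + (1795961792504431004149664391600/189302356769686184265156105292249) * (t ^ 14 * (1 - t) ^ 0) := by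
    unfold R I
    ring
  have hpos : 0 < 1 - (R t ^ 2 + I t ^ 2) := by
    rw [key]
    rcases h0.eq_or_lt with h | h
    · rw [← h]; norm_num
    · positivity
  linarith

lemma T1_conj (z : ℂ) : (derivative T).eval (starRingEnd ℂ z) = starRingEnd ℂ ((derivative T).eval z) := by
  rw [T1_eval, T1_eval]
  simp [map_ofNat]

lemma T_conj (z : ℂ) : T.eval (starRingEnd ℂ z) = starRingEnd ℂ (T.eval z) := by
  rw [T_eval, T_eval]
  simp [map_ofNat]

lemma T_z1 : T.eval ((139 : ℂ) + 60 * Complex.I) = ((8973348840749122643/110069754398108456) : ℂ) + 60 * Complex.I := by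
  rw [T_eval, z1_2, z1_3, z1_4, z1_5, z1_6, z1_7, z1_8]
  ring

lemma crit_values (z : ℂ) (h : (derivative (derivative T)).eval z = 0) :
    1 ≤ ‖(derivative T).eval z‖ := by
  have key : ∀ u v : ℝ, 1 ≤ ‖(derivative T).eval ((u : ℂ) + v * Complex.I)‖ →
      z ^ 2 - 2 * u * z + (u ^ 2 + v ^ 2) = 0 → 1 ≤ ‖(derivative T).eval z‖ := by
    intro u v hn hq
    have h2 : (z - (u + v * Complex.I)) * (z - (u - v * Complex.I)) = 0 := by
      have hI := Complex.I_sq
      linear_combination hq - (v : ℂ) ^ 2 * hI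
    rcases mul_eq_zero.mp h2 with h3 | h3
    · have : z = u + v * Complex.I := by linear_combination h3
      rw [this]; exact hn
    · have : z = starRingEnd ℂ ((u : ℂ) + v * Complex.I) := by
        simp only [map_add, map_mul, Complex.conj_ofReal, Complex.conj_I]
        linear_combination h3
      rw [this, T1_conj, Complex.norm_conj]; exact hn
  rw [T2_eval] at h
  have h4 : (z ^ 2 - 60 * z + 15300) * (z ^ 2 - 300 * z + 28900) * (z ^ 2 - 200 * z + 26900) = 0 := by
    rcases mul_eq_zero.mp h with h5 | h5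
    · exfalso; norm_num at h5
    · exact h5
  rcases mul_eq_zero.mp h4 with h5 | h5
  · rcases mul_eq_zero.mp h5 with h6 | h6
    · refine key 30 120 ?_ ?_
      · have := crit1_norm; push_cast; exact this
      · push_cast; linear_combination h6
    · refine key 150 80 ?_ ?_
      · have := crit2_norm; push_cast; exact this
      · push_cast; linear_combination h6
  · refine key 100 130 ?_ ?_
    · have := crit3_norm; push_cast; exact this
    · push_cast; linear_combination h5

/-- The open set |T'| < 1. -/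
def V : Set ℂ := {u : ℂ | ‖(derivative T).eval u‖ < 1}

lemma seg_mem (t : ℝ) (h0 : 0 ≤ t) (h1 : t ≤ 1) : (t : ℂ) * (139 + 60 * Complex.I) ∈ V := by
  unfold V
  rw [Set.mem_ofPred_eq, T1_seg]
  exact norm_lt_one (seg_bound t h0 h1)

lemma seg_mem' (t : ℝ) (h0 : 0 ≤ t) (h1 : t ≤ 1) : (t : ℂ) * (139 - 60 * Complex.I) ∈ V := by
  have h : (t : ℂ) * (139 - 60 * Complex.I) = starRingEnd ℂ ((t : ℂ) * (139 + 60 * Complex.I)) := by
    simp [map_ofNat]
    left; ring
  have h2 := seg_mem t h0 h1
  unfold V at h2 ⊢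
  rw [Set.mem_ofPred_eq] at h2 ⊢
  rw [h, T1_conj, Complex.norm_conj]
  exact h2

lemma conn (w : ℂ) (hw : ∀ t : ℝ, 0 ≤ t → t ≤ 1 → (t : ℂ) * w ∈ V) :
    w ∈ connectedComponentIn V 0 := by
  have hpre : IsPreconnected ((fun t : ℝ => (t : ℂ) * w) '' Set.Icc 0 1) :=
    isPreconnected_Icc.image _ (by fun_prop)
  have h0 : (0 : ℂ) ∈ ((fun t : ℝ => (t : ℂ) * w) '' Set.Icc 0 1) := ⟨0, by simp, by simp⟩
  have hsub : ((fun t : ℝ => (t : ℂ) * w) '' Set.Icc 0 1) ⊆ V := by
    rintro _ ⟨t, ht, rfl⟩
    exact hw t ht.1 ht.2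
  exact hpre.subset_connectedComponentIn h0 hsub ⟨1, by simp, by simp⟩

end Pool.Agent.Helper523.Valence
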